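import Pool.Agent.R278.LS.Code2
import Pool.Agent.R278.LS.NonIso
import Pool.Agent.Results.MP_65983e_an.CofinalFraisseNotOmegaCat

/-!
# A new Banach space with a G-delta isometry class

Answer to Q1 of MP_ab3705_an: yes.  The space is the square-summable sum of the planes `E_n` with
norm given by `‖(u,v)‖ ^ 2 = u ^ 2 + v ^ 2 + 2 * e_n * |u * v|`, where `e_n = 1 / (n + 2)`.

The pseudonorms on the rational finitely supported sequences are modelled by the seminorms on the
real finitely supported sequences (their canonical extensions) with the topology of pointwise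
convergence on rational vectors.
-/

open Set Filter Topology MeasureTheory
open scoped ENNReal

namespace Pool.Agent.Results.MP_ab3705_an.GdeltaIsometryClass

open Pool.Agent.H418R3.Gur (PN PInf BB)

/-- The isometry class of `Z` in `J` (`J = P_∞` or `J = B`), a subset of the topological
space `J`: the codes `μ` in `J` for which the coded Banach space is linearly isometric to `Z`. -/
def isometryClass (J : Set PN) (Z : Type) [NormedAddCommGroup Z] [NormedSpace ℝ Z] : Set J :=
  {μ | Nonempty (Pool.Agent.H418R3.Gur.XX μ.1 ≃ₗᵢ[ℝ] Z)}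

/-- The Gurarii property: for all finite-dimensional `E ⊆ F`, every linear isometric embedding
`T : E → G` and every `ε > 0` there is a linear extension `S : F → G` of `T` with
`(1-ε) ‖x‖ ≤ ‖S x‖ ≤ (1+ε) ‖x‖`. -/
def IsGurarii (G : Type) [NormedAddCommGroup G] [NormedSpace ℝ G] : Prop :=
  ∀ (F : Type) [NormedAddCommGroup F] [NormedSpace ℝ F] [FiniteDimensional ℝ F]
    (E : Submodule ℝ F) (T : E →ₗᵢ[ℝ] G) (ε : ℝ), 0 < ε →
    ∃ S : F →ₗ[ℝ] G, (∀ x : E, S x = T x) ∧
      ∀ x : F, (1 - ε) * ‖x‖ ≤ ‖S x‖ ∧ ‖S x‖ ≤ (1 + ε) * ‖x‖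

/-- There is a separable infinite-dimensional Banach space `X`, not isometric to any Lebesgue
space `L_p[0,1]`, `1 ≤ p < ∞`, nor to a Gurarii space, and not omega-categorical, whose isometry
class is a G-delta set in `P_∞` and in `B`. -/
theorem result : ∃ (X : Type) (_ : NormedAddCommGroup X) (_ : NormedSpace ℝ X),
    CompleteSpace X ∧ TopologicalSpace.SeparableSpace X ∧ ¬ FiniteDimensional ℝ X ∧
      (∀ (p : ℝ≥0∞) [Fact (1 ≤ p)], p ≠ ⊤ →
        ¬ Nonempty (X ≃ₗᵢ[ℝ] Lp ℝ p (volume.restrict (Set.Icc (0 : ℝ) 1)))) ∧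
      (∀ (G : Type) [NormedAddCommGroup G] [NormedSpace ℝ G], IsGurarii G →
        ¬ Nonempty (X ≃ₗᵢ[ℝ] G)) ∧
      ¬ Pool.Agent.Results.MP_65983e_an.CofinalFraisseNotOmegaCat.OmegaCategorical X ∧
      IsGδ (isometryClass PInf X) ∧ IsGδ (isometryClass BB X) := by
  refine ⟨R278.LS.XX, inferInstance, inferInstance, inferInstance, R278.LS.separable_XX,
    R278.LS.not_finiteDimensional_XX, ?_, ?_,
    Pool.Agent.Results.MP_65983e_an.CofinalFraisseNotOmegaCat.not_omega,
    R278.LS.isGδ_class PInf, R278.LS.isGδ_class BB⟩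
  · rintro p _ hp ⟨J⟩
    exact R278.LS.not_Lp p hp J
  · rintro G _ _ hG ⟨J⟩
    obtain ⟨S, -, hS⟩ := hG (Fin 4 → ℝ) ⊥
      { toFun := fun _ => 0
        map_add' := fun _ _ => by simp
        map_smul' := fun _ _ => by simp
        norm_map' := fun x => by
          have : x = 0 := Subsingleton.elim _ _
          rw [this]
          simp } (1 / 10) (by norm_num)
    exact R278.LS.no_cube J.symm S hS

end Pool.Agent.Results.MP_ab3705_an.GdeltaIsometryClass
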